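import Pool.Agent.helper1.CD.Spec

set_option autoImplicit false

open NumberField IsDedekindDomain Complex Pool.Agent.CH Pool.Agent.GK

namespace Pool.Agent.CD

theorem CNT_nv_ne (K : Type) [Field K] [NumberField K] (v : Pl K) : nv K v ≠ 0 := by
  unfold nv
  rw [Ne, Ideal.absNorm_eq_zero_iff]
  exact v.ne_bot

theorem CNT_finV (K : Type) [Field K] [NumberField K] (p : ℕ) (S : Set (Pl K)) :
    Finite {v : Pl K // v ∈ S ∧ nv K v = p} := by
  have h := Ideal.finite_setOfPred_absNorm_eq (S := 𝓞 K) p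
  have h' : Finite {I : Ideal (𝓞 K) // Ideal.absNorm I = p} := h.to_subtype
  refine Finite.of_injective (fun v : {v : Pl K // v ∈ S ∧ nv K v = p} =>
    (⟨v.1.asIdeal, v.2.2⟩ : {I : Ideal (𝓞 K) // Ideal.absNorm I = p})) ?_
  intro v w hvw
  apply Subtype.ext
  apply HeightOneSpectrum.ext
  exact congrArg Subtype.val hvw

theorem CNT (hCNA : CNA_stmt) (hCNB : CNB_stmt) : CNT_stmt := by
  intro K M _ _ _ _ _ _ m r z g hm hz hg hgood
  obtain ⟨T, hT⟩ := hCNB K M g
  refine ⟨m * ∏ v ∈ T, nv K v, Nat.mul_pos hm (Finset.prod_pos fun v _ => Nat.pos_of_ne_zero (CNT_nv_ne K v)), ?_⟩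
  intro p hp hpD hpr
  have hpm : ¬ p ∣ m := fun h => hpD (Dvd.dvd.mul_right h _)
  have hvT : ∀ v : Pl K, nv K v = p → v ∉ T := by
    intro v hv hvT
    apply hpD
    refine Dvd.dvd.mul_left ?_ m
    rw [← hv]
    exact Finset.dvd_prod_of_mem _ hvT
  have key := hCNA K M m r z g hm hz hg hgood p
  set F := IntermediateField.fixedField (Subgroup.zpowers g) with hF
  choose Q hQp hQI hQn hQF using fun I : {I : Ideal (𝓞 F) // Ideal.absNorm I = p} => key I.1 hp hpm hpr I.2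
  let V := {v : Pl K // v ∈ Fp K M g ∧ nv K v = p}
  let B : V → Type := fun v => {Q : Ideal (𝓞 M) // Q.IsPrime ∧ Q.under (𝓞 K) = v.1.asIdeal ∧ IsFr g Q (nv K v.1)}
  have hV : Finite V := CNT_finV K p _
  have hB : ∀ v : V, Finite (B v) := by
    intro v
    have h1 : (v.1.asIdeal.primesOver (𝓞 M)).Finite := by
      have : v.1.asIdeal.IsMaximal := v.1.isMaximal
      exact IsDedekindDomain.primesOver_finite v.1.asIdeal (𝓞 M)
    have h2 : Finite (v.1.asIdeal.primesOver (𝓞 M)) := h1.to_subtype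
    refine Finite.of_injective (fun Q : B v => (⟨Q.1, Q.2.1, ⟨Q.2.2.1.symm⟩⟩ : v.1.asIdeal.primesOver (𝓞 M))) ?_
    intro Q Q' h
    have h3 : Q.1 = Q'.1 := congrArg (fun x : v.1.asIdeal.primesOver (𝓞 M) => x.1) h
    exact Subtype.ext h3
  let vI : {I : Ideal (𝓞 F) // Ideal.absNorm I = p} → V := fun I =>
    ⟨⟨(Q I).under (𝓞 K), by haveI := hQp I; exact Ideal.IsPrime.under (𝓞 K) (Q I), by
      intro h
      have h1 := hQn I
      rw [h, Ideal.absNorm_bot] at h1
      exact hp.ne_zero h1.symm⟩, by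
      refine ⟨⟨?_, Q I, hQp I, rfl, ?_⟩, hQn I⟩
      · show (Ideal.absNorm ((Q I).under (𝓞 K))).Prime
        rw [hQn I]
        exact hp
      · show IsFr g (Q I) (Ideal.absNorm ((Q I).under (𝓞 K)))
        rw [hQn I]
        exact hQF I⟩
  let Φ : {I : Ideal (𝓞 F) // Ideal.absNorm I = p} → Σ v : V, B v := fun I => ⟨vI I, ⟨Q I, hQp I, rfl, by
      show IsFr g (Q I) (Ideal.absNorm ((Q I).under (𝓞 K)))
      rw [hQn I]
      exact hQF I⟩⟩
  have hΦ : Function.Injective Φ := by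
    intro I J hIJ
    have h1 : (Φ I).2.1 = (Φ J).2.1 := by rw [hIJ]
    have h2 : Q I = Q J := h1
    apply Subtype.ext
    rw [← hQI I, ← hQI J, h2]
  haveI : Fintype V := Fintype.ofFinite V
  haveI : ∀ v : V, Finite (B v) := hB
  have h1 : nd F p ≤ ∑ v : V, Nat.card (B v) := by
    have h2 : Nat.card {I : Ideal (𝓞 F) // Ideal.absNorm I = p} ≤ Nat.card (Σ v : V, B v) :=
      Nat.card_le_card_of_injective Φ hΦ
    rw [Nat.card_sigma] at h2
    exact h2
  calc orderOf g * nd F p ≤ orderOf g * ∑ v : V, Nat.card (B v) := Nat.mul_le_mul_left _ h1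
    _ = ∑ v : V, orderOf g * Nat.card (B v) := Finset.mul_sum _ _ _
    _ ≤ ∑ v : V, Nat.card {h : M ≃ₐ[K] M // h * g = g * h} := Finset.sum_le_sum fun v _ => hT v.1 (hvT v.1 v.2.2)
    _ = Nat.card {h : M ≃ₐ[K] M // h * g = g * h} * Nat.card V := by
      rw [Finset.sum_const, Finset.card_univ, smul_eq_mul, mul_comm, Nat.card_eq_fintype_card (α := V)]

end Pool.Agent.CD
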